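import Pool.Agent.N879.GD.Stm

/-!
# The estimate of a block for PIECE SUM of the project GD
-/

set_option autoImplicit false

namespace Pool.Agent.Helper98.GD

open Pool.Agent.N879.GD

noncomputable section

theorem pow_exp (n : ℕ) {q : ℝ} (hq : 0 ≤ q) :
    q ^ n * Real.exp (-(q / 4)) ≤ 4 ^ n * (n.factorial : ℝ) := by
  have h1 := Real.pow_div_factorial_le_exp (q / 4) (by positivity) n
  have h2 : (0 : ℝ) < n.factorial := by exact_mod_cast n.factorial_pos
  rw [div_le_iff₀ h2, div_pow, div_le_iff₀ (by positivity)] at h1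
  calc q ^ n * Real.exp (-(q / 4))
      ≤ (Real.exp (q / 4) * n.factorial * 4 ^ n) * Real.exp (-(q / 4)) := by
        gcongr
    _ = 4 ^ n * n.factorial * (Real.exp (q / 4) * Real.exp (-(q / 4))) := by ring
    _ = 4 ^ n * n.factorial := by rw [← Real.exp_add]; simp

/-- the factor which depends on the ratio -/
def g (q : ℝ) : ℝ := √q * q ^ 3 * Real.exp (-(q / 4))

theorem g_nonneg {q : ℝ} (hq : 0 ≤ q) : 0 ≤ g q := by
  unfold g
  positivity

theorem sqrt_le_one_add {q : ℝ} (hq : 0 ≤ q) : √q ≤ 1 + q := by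
  have h := Real.sq_sqrt hq
  nlinarith [Real.sqrt_nonneg q, sq_nonneg (√q - 1)]

theorem g_mul_le {q : ℝ} (hq : 0 ≤ q) : g q * (1 + q) ≤ 135552 := by
  unfold g
  have h3 := pow_exp 3 hq
  have h4 := pow_exp 4 hq
  have h5 := pow_exp 5 hq
  norm_num [Nat.factorial] at h3 h4 h5
  have h := sqrt_le_one_add hq
  have he := Real.exp_pos (-(q / 4))
  calc √q * q ^ 3 * Real.exp (-(q / 4)) * (1 + q)
      ≤ (1 + q) * q ^ 3 * Real.exp (-(q / 4)) * (1 + q) := by gcongr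
    _ = q ^ 3 * Real.exp (-(q / 4)) + 2 * (q ^ 4 * Real.exp (-(q / 4)))
        + q ^ 5 * Real.exp (-(q / 4)) := by ring
    _ ≤ 135552 := by linarith

theorem g_le {q : ℝ} (hq : 0 ≤ q) : g q ≤ 135552 := by
  have h1 := g_mul_le hq
  have h2 := g_nonneg hq
  nlinarith

theorem g_small {q s : ℝ} (hq : 0 ≤ q) (hs : s ≤ 1) (h : q ≤ s) : g q ≤ s := by
  unfold g
  have h1 : √q ≤ 1 := by
    exact Real.sqrt_le_iff.2 ⟨by norm_num, by linarith⟩
  have h2 : q ^ 3 ≤ q := by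
    nlinarith [mul_nonneg hq hq, mul_nonneg hq (mul_nonneg hq hq)]
  have h3 : Real.exp (-(q / 4)) ≤ 1 := by
    rw [Real.exp_le_one_iff]; linarith
  calc √q * q ^ 3 * Real.exp (-(q / 4)) ≤ 1 * q * 1 := by gcongr
    _ ≤ s := by linarith

theorem g_large {q s : ℝ} (hs0 : 0 < s) (hs : s ≤ 1) (h : 1 / s ≤ q) : g q ≤ 135552 * s := by
  have hq : 1 ≤ q := le_trans (by rw [le_div_iff₀ hs0]; linarith) h
  have hq0 : 0 < q := by linarith
  unfold g
  have h5 := pow_exp 5 hq0.le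
  norm_num [Nat.factorial] at h5
  have h1 : √q ≤ q := by
    rw [Real.sqrt_le_left hq0.le]
    nlinarith
  have h2 : 1 ≤ q * s := by
    rw [div_le_iff₀ hs0] at h
    exact h
  have he := Real.exp_pos (-(q / 4))
  calc √q * q ^ 3 * Real.exp (-(q / 4)) ≤ q * q ^ 3 * Real.exp (-(q / 4)) * 1 := by
        rw [mul_one]; gcongr
    _ ≤ q * q ^ 3 * Real.exp (-(q / 4)) * (q * s) := by gcongr
    _ = (q ^ 5 * Real.exp (-(q / 4))) * s := by ring
    _ ≤ 122880 * s := by gcongr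
    _ ≤ 135552 * s := by nlinarith

/-- the main expression of the trivial bound -/
def core (m R z w : ℝ) : ℝ :=
  (√(m * (m + R)))⁻¹ * (1 + w) ^ (-(1 / 2 : ℝ)) * ((1 + w) / z) ^ 4 * Real.exp (-(w / (4 * z))) * R

theorem core_le {m R z w T : ℝ} (hm : 0 < m) (hR : 0 < R) (hT : 0 < T) (hz : 1 ≤ z)
    (hzT : T * (R / (m + R)) ≤ z) (hw : 0 ≤ w) :
    core m R z w ≤ 2 * √(R / (m * T)) * g ((1 + w) / z) := by
  have hz0 : 0 < z := by linarith
  set q := (1 + w) / z with hqdef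
  have hq : 0 < q := by positivity
  have hqz : 1 + w = q * z := by rw [hqdef]; field_simp
  have h1 : (1 + w) ^ (-(1 / 2 : ℝ)) = (√q)⁻¹ * (√z)⁻¹ := by
    rw [Real.rpow_neg (by positivity), ← Real.sqrt_eq_rpow, hqz, Real.sqrt_mul hq.le, mul_inv]
  have h2 : Real.exp (-(w / (4 * z))) ≤ 2 * Real.exp (-(q / 4)) := by
    have h3 : -(w / (4 * z)) = 1 / (4 * z) + -(q / 4) := by
      have : w = q * z - 1 := by linarith
      rw [this]
      field_simp
      ring
    rw [h3, Real.exp_add]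
    have h4 : Real.exp (1 / (4 * z)) ≤ 2 := by
      have h5 : 1 / (4 * z) ≤ 1 / 4 := by
        apply one_div_le_one_div_of_le <;> linarith
      have h6 : Real.exp (1 / (4 * z)) ≤ Real.exp (1 / 4) := Real.exp_le_exp.2 h5
      have h7 : Real.exp (1 / 4 : ℝ) ≤ 2 := by
        have h8 : Real.exp (1 / 4 : ℝ) ^ 4 ≤ 2 ^ 4 := by
          rw [← Real.exp_nat_mul]
          norm_num
          have := Real.exp_one_lt_d9
          linarith
        exact le_of_pow_le_pow_left₀ (by norm_num) (by norm_num) h8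
      linarith
    gcongr
  have h3 : R * ((√(m * (m + R)))⁻¹ * (√z)⁻¹) ≤ √(R / (m * T)) := by
    have h4 : R * ((√(m * (m + R)))⁻¹ * (√z)⁻¹) = √(R ^ 2 / (m * (m + R) * z)) := by
      rw [Real.sqrt_div (by positivity), Real.sqrt_sq hR.le,
        Real.sqrt_mul (by positivity : 0 ≤ m * (m + R)) z]
      field_simp
    rw [h4]
    apply Real.sqrt_le_sqrt
    rw [div_le_div_iff₀ (by positivity) (by positivity)]
    have h5 : T * R ≤ z * (m + R) := by
      rw [← mul_div_assoc, div_le_iff₀ (by positivity)] at hzT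
      exact hzT
    calc R ^ 2 * (m * T) = (R * m) * (T * R) := by ring
      _ ≤ (R * m) * (z * (m + R)) := by gcongr
      _ = R * (m * (m + R) * z) := by ring
  have h4 : (√q)⁻¹ * q ^ 4 = √q * q ^ 3 := by
    have h5 : √q * √q = q := Real.mul_self_sqrt hq.le
    have h6 : √q ≠ 0 := by positivity
    field_simp
    nlinarith
  unfold core g
  rw [h1]
  calc (√(m * (m + R)))⁻¹ * ((√q)⁻¹ * (√z)⁻¹) * q ^ 4 * Real.exp (-(w / (4 * z))) * R
      = (R * ((√(m * (m + R)))⁻¹ * (√z)⁻¹)) * ((√q)⁻¹ * q ^ 4) * Real.exp (-(w / (4 * z))) := by ring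
    _ ≤ √(R / (m * T)) * ((√q)⁻¹ * q ^ 4) * (2 * Real.exp (-(q / 4))) := by gcongr
    _ = 2 * √(R / (m * T)) * (√q * q ^ 3 * Real.exp (-(q / 4))) := by rw [h4]; ring

theorem blk (h1 : S_BA) (h2 : S_BB) : ∃ η : ℝ, 0 < η ∧ η ≤ 1 ∧ ∃ C : ℝ, 0 < C ∧
    ∀ (σ T y ω : ℝ) (m R L : ℕ), 0 ≤ σ → σ ≤ 1 → 2 ^ 64 ≤ T → 1 ≤ m → 1 ≤ R → L ≤ R →
    (m : ℝ) * (m + R) ≤ 2 * T ^ (1 + η / 8) →
    ‖∑ r ∈ Finset.range L, bt σ 4 T y ω m (m + R + r)‖ ≤
      C * (1 + |y|) * T ^ (-(η / 16)) / m := by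
  obtain ⟨C1, hC1, h1⟩ := h1 4 (by norm_num)
  obtain ⟨η, hη0, hη1, h2⟩ := h2
  obtain ⟨C2, hC2, h2⟩ := h2 4 (by norm_num)
  refine ⟨η, hη0, hη1, 135552 * (4 * C1 + 8 * C2), by positivity, ?_⟩
  intro σ T y ω m R L hσ0 hσ1 hT hm hR hL hX
  have hT1 : 1 ≤ T := le_trans (by norm_num) hT
  have hT0 : 0 < T := by linarith
  have hm1 : (1 : ℝ) ≤ m := by exact_mod_cast hm
  have hR1 : (1 : ℝ) ≤ R := by exact_mod_cast hR
  have hm0 : (0 : ℝ) < m := by linarith
  have hR0 : (0 : ℝ) < R := by linarith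
  have hy : 1 ≤ 1 + |y| := by linarith [abs_nonneg y]
  -- powers of T
  have mono : ∀ a b : ℝ, a ≤ b → T ^ a ≤ T ^ b := fun a b h => Real.rpow_le_rpow_of_exponent_le hT1 h
  have add : ∀ a b : ℝ, T ^ a * T ^ b = T ^ (a + b) := fun a b => (Real.rpow_add hT0 a b).symm
  have pos : ∀ a : ℝ, 0 < T ^ a := fun a => Real.rpow_pos_of_pos hT0 a
  have h16 : 16 ≤ T ^ (1 / 16 : ℝ) := by
    calc (16 : ℝ) = ((2 : ℝ) ^ (64 : ℕ)) ^ (1 / 16 : ℝ) := by
          rw [← Real.rpow_natCast, ← Real.rpow_mul (by norm_num)]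
          norm_num
      _ ≤ T ^ (1 / 16 : ℝ) := Real.rpow_le_rpow (by positivity) hT (by norm_num)
  have h4 : 16 ≤ T ^ (1 / 4 : ℝ) := h16.trans (mono _ _ (by norm_num))
  -- the size of m
  have hm2 : (m : ℝ) ≤ 2 * T ^ ((1 + η / 8) / 2) := by
    by_contra hc
    push Not at hc
    have h5 : (2 * T ^ ((1 + η / 8) / 2)) * (2 * T ^ ((1 + η / 8) / 2)) = 4 * T ^ (1 + η / 8) := by
      have := add ((1 + η / 8) / 2) ((1 + η / 8) / 2)
      rw [add_halves] at this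
      linear_combination 4 * this
    have h6 := pos (1 + η / 8)
    have h7 := pos ((1 + η / 8) / 2)
    have h8 : (2 * T ^ ((1 + η / 8) / 2)) * (2 * T ^ ((1 + η / 8) / 2)) ≤ (m : ℝ) * m := by
      gcongr
    nlinarith [mul_pos hm0 hR0]
  set ρ : ℝ := (R : ℝ) / (m + R) with hρdef
  have hρ0 : 0 < ρ := by positivity
  have hρ1 : ρ ≤ 1 := by
    rw [hρdef, div_le_one (by positivity)]
    linarith
  have hρ : 1 / (2 * m) ≤ ρ := by
    rw [hρdef, div_le_div_iff₀ (by positivity) (by positivity)]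
    nlinarith
  have hρT : T ^ (-((1 + η / 8) / 2)) / 4 ≤ ρ := by
    refine le_trans ?_ hρ
    rw [Real.rpow_neg hT0.le, div_le_div_iff₀ (by norm_num) (by positivity), inv_mul_le_iff₀ (pos _)]
    linarith
  set z : ℝ := zz T m R with hzdef
  have hlog : ρ ≤ Real.log (1 + (R : ℝ) / m) := by
    have h5 := Real.one_sub_inv_le_log_of_pos (x := 1 + (R : ℝ) / m) (by positivity)
    refine le_trans (le_of_eq ?_) h5
    rw [hρdef]
    field_simp
    ring
  have hzρ : T * ρ ≤ z := by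
    rw [hzdef]
    unfold zz
    gcongr
  have hTρ : 4 ≤ T * ρ := by
    calc (4 : ℝ) ≤ T ^ (1 / 4 : ℝ) / 4 := by linarith
      _ ≤ T ^ (1 + -((1 + η / 8) / 2)) / 4 := by
        have := mono (1 / 4) (1 + -((1 + η / 8) / 2)) (by linarith)
        linarith
      _ = T * (T ^ (-((1 + η / 8) / 2)) / 4) := by
        rw [← add, Real.rpow_one]; ring
      _ ≤ T * ρ := by gcongr
  have hz1 : 1 ≤ z := by linarith
  have hz0 : 0 < z := by linarith
  set w : ℝ := |ω| with hwdef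
  have hw : 0 ≤ w := abs_nonneg ω
  set q : ℝ := (1 + w) / z with hqdef
  have hq : 0 < q := by positivity
  have hcore := core_le hm0 hR0 hT0 hz1 hzρ hw
  have hS1 : √((R : ℝ) / (m * T)) ≤ 2 * T ^ (η / 16) / m := by
    rw [Real.sqrt_le_left (by positivity), div_pow, mul_pow]
    rw [div_le_div_iff₀ (by positivity) (by positivity)]
    have h5 : (T ^ (η / 16)) ^ 2 * T = T ^ (1 + η / 8) := by
      rw [pow_two, add, ← Real.rpow_add_one hT0.ne']
      congr 1
      ring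
    calc (R : ℝ) * (m : ℝ) ^ 2 = (m * R) * m := by ring
      _ ≤ (4 * T ^ (1 + η / 8)) * m := by
        have h6 := pos (1 + η / 8)
        have h7 : (m : ℝ) * R ≤ 4 * T ^ (1 + η / 8) := by nlinarith
        exact mul_le_mul_of_nonneg_right h7 hm0.le
      _ = 2 ^ 2 * (T ^ (η / 16)) ^ 2 * (m * T) := by rw [← h5]; ring
  have hBA := h1 σ T y ω m R L hσ0 hσ1 hT0 hm hR hL hz1
  have hBA' : ‖∑ r ∈ Finset.range L, bt σ 4 T y ω m (m + R + r)‖ ≤ C1 * core m R z w := by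
    refine hBA.trans (le_of_eq ?_)
    unfold core
    ring
  have hg0 := g_nonneg hq.le
  have hP := pos (-(η / 16))
  -- conclusion from a bound
  have fin1 : ∀ u : ℝ, u ≤ -(η / 16) → C1 * (4 * T ^ u / m * 135552) ≤
      135552 * (4 * C1 + 8 * C2) * (1 + |y|) * T ^ (-(η / 16)) / m := by
    intro u hu
    rw [div_mul_eq_mul_div, ← mul_div_assoc]
    apply div_le_div_of_nonneg_right _ hm0.le
    have h5 := mono _ _ hu
    have h6 := pos u
    calc C1 * (4 * T ^ u * 135552) = 135552 * (4 * C1) * 1 * T ^ u := by ring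
      _ ≤ 135552 * (4 * C1 + 8 * C2) * (1 + |y|) * T ^ (-(η / 16)) := by
        gcongr
        linarith
  by_cases hA : q ≤ T ^ (-(1 / 8) : ℝ) ∨ T ^ (1 / 8 : ℝ) ≤ q
  · have hg : g q ≤ 135552 * T ^ (-(1 / 8) : ℝ) := by
      have hs0 := pos (-(1 / 8))
      have hs1 : T ^ (-(1 / 8) : ℝ) ≤ 1 := Real.rpow_le_one_of_one_le_of_nonpos hT1 (by norm_num)
      rcases hA with h | h
      · have := g_small hq.le hs1 h
        linarith
      · apply g_large hs0 hs1
        rw [Real.rpow_neg hT0.le, one_div, inv_inv]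
        exact h
    calc ‖∑ r ∈ Finset.range L, bt σ 4 T y ω m (m + R + r)‖ ≤ C1 * core m R z w := hBA'
      _ ≤ C1 * (2 * √((R : ℝ) / (m * T)) * g q) := by gcongr
      _ ≤ C1 * (2 * (2 * T ^ (η / 16) / m) * (135552 * T ^ (-(1 / 8) : ℝ))) := by gcongr
      _ = C1 * (4 * T ^ (η / 16 + -(1 / 8)) / m * 135552) := by rw [← add]; ring
      _ ≤ _ := fin1 _ (by linarith)
  push Not at hA
  obtain ⟨hq1, hq2⟩ := hA
  by_cases hB : (R : ℝ) < T ^ (1 / 4 : ℝ)
  · have hS2 : √((R : ℝ) / (m * T)) ≤ 2 * T ^ (-(1 / 8) + η / 32) / m := by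
      rw [Real.sqrt_le_left (by positivity), div_pow, mul_pow]
      rw [div_le_div_iff₀ (by positivity) (by positivity)]
      have h5 : (T ^ (-(1 / 8) + η / 32)) ^ 2 * T = T ^ (1 / 4 : ℝ) * T ^ ((1 + η / 8) / 2) := by
        rw [pow_two, add, add, ← Real.rpow_add_one hT0.ne']
        congr 1
        ring
      calc (R : ℝ) * (m : ℝ) ^ 2 = R * m * m := by ring
        _ ≤ T ^ (1 / 4 : ℝ) * (2 * T ^ ((1 + η / 8) / 2)) * m := by gcongr
        _ ≤ 4 * (T ^ (1 / 4 : ℝ) * T ^ ((1 + η / 8) / 2)) * m := by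
          have h6 := mul_pos (pos (1 / 4)) (pos ((1 + η / 8) / 2))
          exact mul_le_mul_of_nonneg_right (by linarith) hm0.le
        _ = 2 ^ 2 * (T ^ (-(1 / 8) + η / 32)) ^ 2 * (m * T) := by rw [← h5]; ring
    have hg : g q ≤ 135552 := g_le hq.le
    calc ‖∑ r ∈ Finset.range L, bt σ 4 T y ω m (m + R + r)‖ ≤ C1 * core m R z w := hBA'
      _ ≤ C1 * (2 * √((R : ℝ) / (m * T)) * g q) := by gcongr
      _ ≤ C1 * (2 * (2 * T ^ (-(1 / 8) + η / 32) / m) * 135552) := by gcongr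
      _ = C1 * (4 * T ^ (-(1 / 8) + η / 32) / m * 135552) := by ring
      _ ≤ _ := fin1 _ (by linarith)
  push Not at hB
  -- the main case
  have hkap : kap m R = ρ * T / z := by
    have hl : 0 < Real.log (1 + (R : ℝ) / m) := lt_of_lt_of_le hρ0 hlog
    rw [hzdef, hρdef]
    unfold kap zz
    field_simp
  have hkw : kap m R * w = ρ * T * q - ρ * T / z := by
    rw [hkap]
    have : w = q * z - 1 := by rw [hqdef]; field_simp; ring
    rw [this]
    field_simp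
  have hk1 : ρ * T / z ≤ 1 := by
    rw [div_le_one hz0]
    linarith
  have hk0 : 0 < ρ * T / z := by positivity
  have hup : kap m R * w ≤ (R : ℝ) ^ 5 := by
    have h5 : ρ * T * q ≤ 1 * T * T ^ (1 / 8 : ℝ) := by gcongr
    have h6 : 1 * T * T ^ (1 / 8 : ℝ) ≤ (T ^ (1 / 4 : ℝ)) ^ 5 := by
      have h7 : (T ^ (1 / 4 : ℝ)) ^ 5 = T ^ (5 / 4 : ℝ) := by
        rw [← Real.rpow_natCast, ← Real.rpow_mul hT0.le]
        norm_num
      rw [h7, one_mul]
      have h8 : T * T ^ (1 / 8 : ℝ) = T ^ (9 / 8 : ℝ) := by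
        have := add 1 (1 / 8)
        rw [Real.rpow_one] at this
        rw [this]
        norm_num
      rw [h8]
      exact mono _ _ (by norm_num)
    have h7 : (T ^ (1 / 4 : ℝ)) ^ 5 ≤ (R : ℝ) ^ 5 := by gcongr
    linarith
  have hlow : T ^ (1 / 4 : ℝ) ≤ kap m R * w := by
    have h5 : 4 * T ^ (1 / 4 : ℝ) ≤ ρ * T * q := by
      calc 4 * T ^ (1 / 4 : ℝ) ≤ (T ^ (1 / 4 : ℝ) * T ^ (1 / 16 : ℝ)) / 4 := by
            have := pos (1 / 4)
            nlinarith
        _ = T ^ (1 / 4 + 1 / 16 : ℝ) / 4 := by rw [add]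
        _ ≤ T ^ (-((1 + η / 8) / 2) + 1 + -(1 / 8)) / 4 := by
            have := mono (1 / 4 + 1 / 16) (-((1 + η / 8) / 2) + 1 + -(1 / 8)) (by linarith)
            linarith
        _ = (T ^ (-((1 + η / 8) / 2)) / 4) * T * T ^ (-(1 / 8) : ℝ) := by
            rw [← add, ← add, Real.rpow_one]; ring
        _ ≤ ρ * T * q := by gcongr
    rw [hkw]
    linarith
  have h2pi : 2 * Real.pi ≤ kap m R * w := by
    have := Real.pi_lt_four
    linarith
  have hBB := h2 σ T y ω m R L hσ0 hσ1 hT0 hm hR hL hz1 h2pi hup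
  have hRη : (R : ℝ) ^ (1 - η) + R / (kap m R * w) = R * ((R : ℝ) ^ (-η) + 1 / (kap m R * w)) := by
    rw [sub_eq_add_neg, Real.rpow_add hR0, Real.rpow_one]
    ring
  have hkw0 : 0 < kap m R * w := lt_of_lt_of_le (pos _) hlow
  have hsav : (R : ℝ) ^ (-η) + 1 / (kap m R * w) ≤ 2 * T ^ (-(η / 4)) := by
    have h5 : (R : ℝ) ^ (-η) ≤ T ^ (-(η / 4)) := by
      calc (R : ℝ) ^ (-η) ≤ (T ^ (1 / 4 : ℝ)) ^ (-η) :=
            Real.rpow_le_rpow_of_nonpos (pos _) hB (by linarith)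
        _ = T ^ (-(η / 4)) := by
            rw [← Real.rpow_mul hT0.le]
            congr 1
            ring
    have h6 : 1 / (kap m R * w) ≤ T ^ (-(η / 4)) := by
      calc 1 / (kap m R * w) ≤ 1 / T ^ (1 / 4 : ℝ) :=
            one_div_le_one_div_of_le (pos _) hlow
        _ = T ^ (-(1 / 4) : ℝ) := by rw [Real.rpow_neg hT0.le, one_div]
        _ ≤ _ := mono _ _ (by linarith)
    linarith
  have hgq : g q * (1 + q) ≤ 135552 := g_mul_le hq.le
  have hc0 : 0 ≤ core m R z w := by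
    unfold core
    positivity
  have hs0 : 0 ≤ (R : ℝ) ^ (-η) + 1 / (kap m R * w) := by positivity
  have h5 := mono (η / 16 + -(η / 4)) (-(η / 16)) (by linarith)
  calc ‖∑ r ∈ Finset.range L, bt σ 4 T y ω m (m + R + r)‖
      ≤ C2 * (1 + |y|) * (core m R z w * (1 + q)) * ((R : ℝ) ^ (-η) + 1 / (kap m R * w)) := by
        refine hBB.trans (le_of_eq ?_)
        rw [hRη]
        unfold core
        ring
    _ ≤ C2 * (1 + |y|) * ((2 * √((R : ℝ) / (m * T)) * g q) * (1 + q)) * (2 * T ^ (-(η / 4))) := by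
        gcongr
    _ = C2 * (1 + |y|) * (2 * √((R : ℝ) / (m * T)) * (g q * (1 + q))) * (2 * T ^ (-(η / 4))) := by ring
    _ ≤ C2 * (1 + |y|) * (2 * (2 * T ^ (η / 16) / m) * 135552) * (2 * T ^ (-(η / 4))) := by
        gcongr
    _ = 135552 * (8 * C2) * (1 + |y|) * T ^ (η / 16 + -(η / 4)) / m := by rw [← add]; ring
    _ ≤ 135552 * (4 * C1 + 8 * C2) * (1 + |y|) * T ^ (-(η / 16)) / m := by
        gcongr
        linarith

end

end Pool.Agent.Helper98.GD
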