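import Pool.Agent.Helper98.GD.Blk

/-!
# PIECE SUM of the project GD: the sum over all pairs off the diagonal
-/

set_option autoImplicit false

namespace Pool.Agent.Helper98.GD

open Pool.Agent.N879.GD MeasureTheory Set
open Pool.Agent.Y969.GP (PS)

noncomputable section

/-! ### Conjugation -/

theorem GG_conj (b : ℕ) (T x ω : ℝ) : GG b T x ω = (starRingEnd ℂ) (GG b T (-x) (-ω)) := by
  unfold GG
  rw [← integral_conj]
  congr 1
  funext u
  rw [map_mul, Complex.conj_ofReal, ← Complex.exp_conj, map_mul, Complex.conj_I, Complex.conj_ofReal]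
  congr 2
  push_cast
  ring

theorem bt_conj (σ : ℝ) (b : ℕ) (T y ω : ℝ) (m n : ℕ) :
    bt σ b T y ω m n = (starRingEnd ℂ) (bt σ b T (-y) (-ω) n m) := by
  unfold bt
  rw [map_mul, map_mul, Complex.conj_ofReal, ← Complex.exp_conj, GG_conj b T _ ω]
  congr 1
  · congr 1
    · rw [mul_comm (m : ℝ)]
    · rw [map_neg, map_mul, map_add, map_mul, Complex.conj_I, Complex.conj_ofReal,
        Complex.conj_ofReal, Complex.conj_ofReal, mul_comm (m : ℝ)]
      congr 2
      push_cast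
      ring
  · rw [neg_sub]

/-! ### The dyadic decomposition -/

theorem dyadic (f : ℕ → ℂ) : ∀ k M : ℕ, 1 ≤ M → M ≤ 2 ^ k →
    ∑ d ∈ Finset.Ico 1 M, f d =
      ∑ i ∈ Finset.range k, ∑ r ∈ Finset.range (min (2 ^ i) (M - 2 ^ i)), f (2 ^ i + r) := by
  intro k
  induction k with
  | zero =>
    intro M h1 h2
    have : M = 1 := by
      simp at h2
      omega
    subst this
    simp
  | succ k ih =>
    intro M h1 h2
    rw [Finset.sum_range_succ]
    by_cases h : M ≤ 2 ^ k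
    · rw [ih M h1 h]
      have : M - 2 ^ k = 0 := by omega
      rw [this]
      simp
    · push Not at h
      have h3 : ∀ i ∈ Finset.range k,
          ∑ r ∈ Finset.range (min (2 ^ i) (M - 2 ^ i)), f (2 ^ i + r) =
          ∑ r ∈ Finset.range (min (2 ^ i) (2 ^ k - 2 ^ i)), f (2 ^ i + r) := by
        intro i hi
        rw [Finset.mem_range] at hi
        have h4 : 2 ^ (i + 1) ≤ 2 ^ k := Nat.pow_le_pow_right (by norm_num) hi
        rw [pow_succ] at h4
        have h5 : min (2 ^ i) (M - 2 ^ i) = 2 ^ i := by omega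
        have h6 : min (2 ^ i) (2 ^ k - 2 ^ i) = 2 ^ i := by omega
        rw [h5, h6]
      rw [Finset.sum_congr rfl h3, ← ih (2 ^ k) Nat.one_le_two_pow le_rfl]
      have h4 : min (2 ^ k) (M - 2 ^ k) = M - 2 ^ k := by
        rw [pow_succ] at h2
        omega
      rw [h4, ← Finset.sum_Ico_consecutive f (Nat.one_le_two_pow (n := k)) h.le,
        Finset.sum_Ico_eq_sum_range f (2 ^ k) M]

/-- the pairs above the diagonal -/
theorem sum_above (F : ℕ → ℕ → ℂ) (X : ℕ) :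
    ∑ p ∈ (PS X).filter (fun p => p.1 < p.2), F p.1 p.2 =
      ∑ m ∈ Finset.Icc 1 X, ∑ d ∈ Finset.Ico 1 (X / m - m + 1), F m (m + d) := by
  rw [Finset.sum_sigma']
  refine Finset.sum_bij' (fun p _ => (⟨p.1, p.2 - p.1⟩ : Σ _ : ℕ, ℕ)) (fun q _ => (q.1, q.1 + q.2))
    ?_ ?_ ?_ ?_ ?_
  · intro p hp
    simp only [PS, Finset.mem_filter, Finset.mem_product, Finset.mem_Icc] at hp
    simp only [Finset.mem_sigma, Finset.mem_Icc, Finset.mem_Ico]
    have h1 : p.2 ≤ X / p.1 := by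
      rw [Nat.le_div_iff_mul_le (by omega), mul_comm]
      exact hp.1.2
    omega
  · intro q hq
    simp only [Finset.mem_sigma, Finset.mem_Icc, Finset.mem_Ico] at hq
    simp only [PS, Finset.mem_filter, Finset.mem_product, Finset.mem_Icc]
    have h1 : q.1 + q.2 ≤ X / q.1 := by omega
    have h2 : q.1 * (q.1 + q.2) ≤ X := by
      rw [mul_comm, ← Nat.le_div_iff_mul_le (by omega)]
      exact h1
    have h3 : X / q.1 ≤ X := Nat.div_le_self _ _
    refine ⟨⟨⟨⟨?_, ?_⟩, ?_, ?_⟩, h2⟩, ?_⟩ <;> omega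
  · intro p hp
    simp only [PS, Finset.mem_filter, Finset.mem_product, Finset.mem_Icc] at hp
    ext
    · rfl
    · dsimp only
      omega
  · intro q hq
    simp only [Finset.mem_sigma, Finset.mem_Icc, Finset.mem_Ico] at hq
    have : q.1 + q.2 - q.1 = q.2 := by omega
    rw [Sigma.ext_iff]
    exact ⟨rfl, heq_of_eq this⟩
  · intro p hp
    simp only [PS, Finset.mem_filter, Finset.mem_product, Finset.mem_Icc] at hp
    have : p.1 + (p.2 - p.1) = p.2 := by omega
    rw [this]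

/-- off the diagonal: above and below -/
theorem sum_off (σ : ℝ) (b : ℕ) (T y ω : ℝ) (X : ℕ) :
    ∑ p ∈ (PS X).filter (fun p => p.1 ≠ p.2), bt σ b T y ω p.1 p.2 =
      ∑ p ∈ (PS X).filter (fun p => p.1 < p.2), bt σ b T y ω p.1 p.2 +
      (starRingEnd ℂ) (∑ p ∈ (PS X).filter (fun p => p.1 < p.2), bt σ b T (-y) (-ω) p.1 p.2) := by
  have h1 : (PS X).filter (fun p => p.1 ≠ p.2) =
      (PS X).filter (fun p => p.1 < p.2) ∪ (PS X).filter (fun p => p.2 < p.1) := by
    ext p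
    simp only [Finset.mem_filter, Finset.mem_union, ne_eq]
    constructor
    · rintro ⟨h, h2⟩
      rcases lt_or_gt_of_ne h2 with h3 | h3
      · exact Or.inl ⟨h, h3⟩
      · exact Or.inr ⟨h, h3⟩
    · rintro (⟨h, h2⟩ | ⟨h, h2⟩)
      · exact ⟨h, by omega⟩
      · exact ⟨h, by omega⟩
  have h2 : Disjoint ((PS X).filter (fun p => p.1 < p.2)) ((PS X).filter (fun p => p.2 < p.1)) := by
    rw [Finset.disjoint_left]
    intro p hp hp2
    simp only [Finset.mem_filter] at hp hp2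
    omega
  rw [h1, Finset.sum_union h2]
  congr 1
  rw [map_sum]
  refine Finset.sum_nbij' (fun p => (p.2, p.1)) (fun p => (p.2, p.1)) ?_ ?_ ?_ ?_ ?_
  · intro p hp
    simp only [PS, Finset.mem_filter, Finset.mem_product, Finset.mem_Icc] at hp ⊢
    rw [mul_comm p.2]
    tauto
  · intro p hp
    simp only [PS, Finset.mem_filter, Finset.mem_product, Finset.mem_Icc] at hp ⊢
    rw [mul_comm p.2]
    tauto
  · intro p _
    rfl
  · intro p _
    rfl
  · intro p _
    exact bt_conj σ b T y ω p.1 p.2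

/-! ### The bound -/

theorem half {η C : ℝ} (hC : 0 < C) (hη0 : 0 < η)
    (hb : ∀ (σ T y ω : ℝ) (m R L : ℕ), 0 ≤ σ → σ ≤ 1 → 2 ^ 64 ≤ T → 1 ≤ m → 1 ≤ R → L ≤ R →
      (m : ℝ) * (m + R) ≤ 2 * T ^ (1 + η / 8) →
      ‖∑ r ∈ Finset.range L, bt σ 4 T y ω m (m + R + r)‖ ≤
        C * (1 + |y|) * T ^ (-(η / 16)) / m)
    {σ T : ℝ} (y ω : ℝ) {X : ℕ} (hσ0 : 0 ≤ σ) (hσ1 : σ ≤ 1) (hT : 2 ^ 64 ≤ T)
    (hX1 : 1 ≤ X) (hX : (X : ℝ) ≤ 2 * T ^ (1 + η / 8)) :
    ‖∑ p ∈ (PS X).filter (fun p => p.1 < p.2), bt σ 4 T y ω p.1 p.2‖ ≤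
      C * (1 + |y|) * T ^ (-(η / 16)) * ((2 * Real.log X + 1) * (1 + Real.log X)) := by
  have hT0 : 0 < T := lt_of_lt_of_le (by norm_num) hT
  have hP : 0 < T ^ (-(η / 16)) := Real.rpow_pos_of_pos hT0 _
  have hy : 0 ≤ |y| := abs_nonneg y
  have hX0 : (1 : ℝ) ≤ X := by exact_mod_cast hX1
  have hlX : 0 ≤ Real.log X := Real.log_nonneg hX0
  rw [sum_above]
  set k := Nat.log 2 X + 1 with hk
  have hkX : X < 2 ^ k := Nat.lt_pow_succ_log_self (by norm_num) X
  have hk2 : (k : ℝ) ≤ 2 * Real.log X + 1 := by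
    have h1 : 2 ^ (Nat.log 2 X) ≤ X := Nat.pow_log_le_self 2 (by omega)
    have h2 : ((2 : ℝ) ^ (Nat.log 2 X)) ≤ X := by exact_mod_cast h1
    have h3 := Real.log_le_log (by positivity) h2
    rw [Real.log_pow] at h3
    have h4 := Real.log_two_gt_d9
    have h5 : (0 : ℝ) ≤ (Nat.log 2 X : ℕ) := Nat.cast_nonneg _
    have h6 : ((Nat.log 2 X : ℕ) : ℝ) * (1 / 2) ≤ Real.log X := by nlinarith
    rw [hk]
    push_cast
    linarith
  have hm : ∀ m ∈ Finset.Icc 1 X, ‖∑ d ∈ Finset.Ico 1 (X / m - m + 1), bt σ 4 T y ω m (m + d)‖ ≤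
      C * (1 + |y|) * T ^ (-(η / 16)) * k * (m : ℝ)⁻¹ := by
    intro m hm
    rw [Finset.mem_Icc] at hm
    have hdiv : X / m ≤ X := Nat.div_le_self _ _
    rw [dyadic (fun d => bt σ 4 T y ω m (m + d)) k (X / m - m + 1) (by omega) (by omega)]
    refine (norm_sum_le _ _).trans ?_
    have hi : ∀ i ∈ Finset.range k,
        ‖∑ r ∈ Finset.range (min (2 ^ i) (X / m - m + 1 - 2 ^ i)), bt σ 4 T y ω m (m + (2 ^ i + r))‖ ≤
        C * (1 + |y|) * T ^ (-(η / 16)) / m := by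
      intro i _
      by_cases h0 : min (2 ^ i) (X / m - m + 1 - 2 ^ i) = 0
      · rw [h0]
        simp only [Finset.range_zero, Finset.sum_empty, norm_zero]
        positivity
      · have h1 : m + 2 ^ i ≤ X / m := by
          have : 1 ≤ 2 ^ i := Nat.one_le_two_pow
          omega
        have h2 : m * (m + 2 ^ i) ≤ X := by
          rw [mul_comm, ← Nat.le_div_iff_mul_le (by omega)]
          exact h1
        have h3 : (m : ℝ) * (m + (2 ^ i : ℕ)) ≤ 2 * T ^ (1 + η / 8) := by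
          refine le_trans ?_ hX
          exact_mod_cast h2
        have h4 := hb σ T y ω m (2 ^ i) (min (2 ^ i) (X / m - m + 1 - 2 ^ i)) hσ0 hσ1 hT hm.1
          Nat.one_le_two_pow (min_le_left _ _) h3
        simpa only [add_assoc] using h4
    refine (Finset.sum_le_sum hi).trans (le_of_eq ?_)
    rw [Finset.sum_const, Finset.card_range, nsmul_eq_mul]
    ring
  refine (norm_sum_le _ _).trans ((Finset.sum_le_sum hm).trans ?_)
  rw [← Finset.mul_sum]
  have hH : ∑ m ∈ Finset.Icc 1 X, ((m : ℝ))⁻¹ ≤ 1 + Real.log X := by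
    have h1 := harmonic_le_one_add_log X
    rw [harmonic_eq_sum_Icc] at h1
    push_cast at h1
    exact h1
  have hk0 : (0 : ℝ) ≤ k := Nat.cast_nonneg _
  calc C * (1 + |y|) * T ^ (-(η / 16)) * k * ∑ m ∈ Finset.Icc 1 X, ((m : ℝ))⁻¹
      ≤ C * (1 + |y|) * T ^ (-(η / 16)) * (2 * Real.log X + 1) * (1 + Real.log X) := by gcongr
    _ = _ := by ring

theorem t_SUM (h1 : S_BA) (h2 : S_BB) : S_SUM := by
  obtain ⟨η, hη0, hη1, C, hC, hb⟩ := blk h1 h2
  set s : ℝ := η / 64 with hs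
  have hs0 : 0 < s := by positivity
  refine ⟨η / 8, η / 32, 4, by positivity, by linarith, by positivity, by linarith, by norm_num,
    2 * C * ((3 + 4 / s) * (2 + 2 / s)), 2 ^ 64, by positivity, by norm_num, ?_⟩
  intro σ T y ω X hσ0 hσ1 hT hX1 hX2
  have hT1 : 1 ≤ T := le_trans (by norm_num) hT
  have hT0 : 0 < T := by linarith
  have hXr : (1 : ℝ) ≤ X := le_trans (Real.one_le_rpow hT1 (by linarith)) hX1
  have hXn : 1 ≤ X := by exact_mod_cast hXr
  have hlX : 0 ≤ Real.log X := Real.log_nonneg hXr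
  have hlT : 0 ≤ Real.log T := Real.log_nonneg hT1
  have hlog : Real.log X ≤ 1 + 2 * Real.log T := by
    have h3 := Real.log_le_log (by linarith) hX2
    rw [Real.log_mul (by norm_num) (by positivity), Real.log_rpow hT0] at h3
    have h4 := Real.log_two_lt_d9
    nlinarith
  have hTs : 1 ≤ T ^ s := Real.one_le_rpow hT1 hs0.le
  have hlTs : Real.log T ≤ T ^ s / s := Real.log_le_rpow_div hT0.le hs0
  have hprod : (2 * Real.log X + 1) * (1 + Real.log X) ≤ (3 + 4 / s) * (2 + 2 / s) * T ^ (η / 32) := by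
    have h3 : 2 * Real.log X + 1 ≤ (3 + 4 / s) * T ^ s := by
      calc 2 * Real.log X + 1 ≤ 3 + 4 * Real.log T := by linarith
        _ ≤ 3 * T ^ s + 4 * (T ^ s / s) := by linarith
        _ = _ := by ring
    have h4 : 1 + Real.log X ≤ (2 + 2 / s) * T ^ s := by
      calc 1 + Real.log X ≤ 2 + 2 * Real.log T := by linarith
        _ ≤ 2 * T ^ s + 2 * (T ^ s / s) := by linarith
        _ = _ := by ring
    have h5 : T ^ s * T ^ s = T ^ (η / 32) := by
      rw [← Real.rpow_add hT0]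
      congr 1
      rw [hs]
      ring
    calc (2 * Real.log X + 1) * (1 + Real.log X)
        ≤ ((3 + 4 / s) * T ^ s) * ((2 + 2 / s) * T ^ s) := by gcongr
      _ = (3 + 4 / s) * (2 + 2 / s) * (T ^ s * T ^ s) := by ring
      _ = _ := by rw [h5]
  rw [sum_off]
  refine (norm_add_le _ _).trans ?_
  rw [RCLike.norm_conj]
  have h3 := half hC hη0 hb y ω hσ0 hσ1 hT hXn hX2
  have h4 := half hC hη0 hb (-y) (-ω) hσ0 hσ1 hT hXn hX2
  rw [abs_neg] at h4
  have hy : 0 ≤ |y| := abs_nonneg y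
  have hP : 0 < T ^ (-(η / 16)) := Real.rpow_pos_of_pos hT0 _
  have h5 : T ^ (-(η / 16)) * T ^ (η / 32) = T ^ (-(η / 32)) := by
    rw [← Real.rpow_add hT0]
    congr 1
    ring
  calc _ ≤ 2 * (C * (1 + |y|) * T ^ (-(η / 16)) * ((2 * Real.log X + 1) * (1 + Real.log X))) := by
        linarith
    _ ≤ 2 * (C * (1 + |y|) * T ^ (-(η / 16)) * ((3 + 4 / s) * (2 + 2 / s) * T ^ (η / 32))) := by
        gcongr
    _ = 2 * C * ((3 + 4 / s) * (2 + 2 / s)) * (1 + |y|) * (T ^ (-(η / 16)) * T ^ (η / 32)) := by ring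
    _ = _ := by rw [h5]

end

end Pool.Agent.Helper98.GD
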